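import Pool.Agent.Y877.SxJ

/-!
# Representations `n = k + m` with `k` in an arbitrary set and conditions on `p_m ^ 2` and `p_{p_m} ^ 2` shifted by
multiples of a small primorial
-/

set_option autoImplicit false

open Finset

namespace Pool.Agent.Results.MP_04ff0f_nt.IndexShiftPairs

/-- the `k`-th prime, `p 1 = 2` -/
noncomputable def p (k : ℕ) : ℕ := Nat.nth Nat.Prime (k - 1)

/-- the product of `1 - 1/q` over the primes `q ≤ y` -/
noncomputable def V (y : ℕ) : ℝ := ∏ q ∈ (Icc 1 y).filter Nat.Prime, (1 - 1 / (q : ℝ))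

/-- the `k ∈ K` such that `p_m ^ 2 + h` and `p_{p_m} ^ 2 + h'` are prime, where `m = n - k` -/
noncomputable def Good2 (n : ℕ) (K : Finset ℕ) (h h' : ℕ) : Finset ℕ :=
  K.filter (fun k => (p (n - k) ^ 2 + h).Prime ∧ (p (p (n - k)) ^ 2 + h').Prime)

theorem nth_inj : Function.Injective (Nat.nth Nat.Prime) := Nat.nth_injective Nat.infinite_setOfPred_prime

theorem p_inj (n : ℕ) : Set.InjOn (fun k => p (n - k)) (Ioo 0 n : Finset ℕ) := by
  intro a ha b hb hab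
  rw [mem_coe, mem_Ioo] at ha hb
  have := nth_inj hab
  omega

theorem pp_inj (n : ℕ) : Set.InjOn (fun k => p (p (n - k))) (Ioo 0 n : Finset ℕ) := by
  intro a ha b hb hab
  rw [mem_coe, mem_Ioo] at ha hb
  have h1 := nth_inj hab
  have h2 : 2 ≤ p (n - a) := (Nat.prime_nth_prime _).two_le
  have h3 : 2 ≤ p (n - b) := (Nat.prime_nth_prime _).two_le
  have h4 : p (n - a) = p (n - b) := by omega
  have h5 := nth_inj h4
  omega

/-- For all `A`, `C` and `0 < ε ≤ 1` there is `K₀` such that for every `K₁` and every large `n`, every `y` between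
`K₀ log log n` and `K₁ log log n`, with `M` the product of the primes `≤ y`, and all windows `(g₀, g₀ + G]`,
`(g₁, g₁ + G']` with `M (g₀ + G) ≤ n²`, `M (g₁ + G') ≤ n²`, `G, G' ≥ n² / (M log ^ C n)`: for every set `K` of at least
`n / log ^ A n` integers `0 < k < n`, for all but at most `ε G G'` of the pairs `g ≤ G`, `g' ≤ G'` both
`p_m ^ 2 + M (g₀ + g)` and `p_{p_m} ^ 2 + M (g₁ + g')`, `m = n - k`, are prime for at least
`(1 - ε) #K / (2 V y log n) ^ 2` elements `k` of `K`. -/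
theorem result : ∀ (A C : ℕ) (ε : ℝ), 0 < ε → ε ≤ 1 → ∃ K₀ : ℕ, ∀ K₁ : ℕ, ∃ n₀ : ℕ, ∀ n : ℕ, n₀ ≤ n →
    ∀ y : ℕ, K₀ * Real.log (Real.log n) ≤ y → y ≤ K₁ * Real.log (Real.log n) →
    ∀ g₀ G : ℕ, primorial y * (g₀ + G) ≤ n ^ 2 → (n : ℝ) ^ 2 ≤ primorial y * G * Real.log n ^ C →
    ∀ g₁ G' : ℕ, primorial y * (g₁ + G') ≤ n ^ 2 → (n : ℝ) ^ 2 ≤ primorial y * G' * Real.log n ^ C →
    ∀ K : Finset ℕ, K ⊆ Ioo 0 n → (n : ℝ) ≤ K.card * Real.log n ^ A →
      (((Icc 1 G ×ˢ Icc 1 G').filter (fun g => ((Good2 n K (primorial y * (g₀ + g.1)) (primorial y * (g₁ + g.2))).card : ℝ) <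
        (1 - ε) * (K.card / (2 * V y * Real.log n) ^ 2))).card : ℝ) ≤ ε * (G * G') := by
  intro A C ε hε hε1
  obtain ⟨K₀', hK₀'⟩ := Pool.Agent.Y877.SX.step2 2 2 (Or.inr rfl) (Or.inr rfl) A 5 C ε hε hε1
  refine ⟨K₀', fun K₁ => ?_⟩
  obtain ⟨n2', hn2'⟩ := hK₀' K₁
  obtain ⟨n3, hn3⟩ := Pool.Agent.H373R2.T7.ev_L' 1
  obtain ⟨n4, hn4⟩ := Pool.Agent.Y877.SX.nth_le_log
  obtain ⟨n5, hn5⟩ := Pool.Agent.Y877.SX.nth_nth_le_log
  refine ⟨max n2' (max n3 (max n4 n5)), fun n hn y hy1 hy2 g₀ G hg1 hg2 g₁ G' hg3 hg4 K hK hKc => ?_⟩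
  have b2' : n2' ≤ n := le_trans (le_max_left _ _) hn
  have b3 : n3 ≤ n := le_trans (le_trans (le_max_left _ _) (le_max_right _ _)) hn
  have b4 : n4 ≤ n := le_trans (le_trans (le_trans (le_max_left _ _) (le_max_right _ _)) (le_max_right _ _)) hn
  have b5 : n5 ≤ n := le_trans (le_trans (le_trans (le_max_right _ _) (le_max_right _ _)) (le_max_right _ _)) hn
  have hL1 := hn3 n b3
  have f1 : ∀ k ∈ Ioo 0 n, (p (n - k)).Prime ∧ (p (n - k) : ℝ) ≤ n * Real.log n ^ 5 := by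
    intro k hk
    rw [mem_Ioo] at hk
    refine ⟨Nat.prime_nth_prime _, (hn4 n b4 (n - k - 1) (by omega)).trans ?_⟩
    apply mul_le_mul_of_nonneg_left _ (Nat.cast_nonneg _)
    exact pow_le_pow_right₀ hL1 (by norm_num)
  have f2 : ∀ k ∈ Ioo 0 n, (p (p (n - k))).Prime ∧ (p (p (n - k)) : ℝ) ≤ n * Real.log n ^ 5 := by
    intro k hk
    rw [mem_Ioo] at hk
    exact ⟨Nat.prime_nth_prime _, hn5 n b5 (n - k - 1) (by omega)⟩
  have h1 := hn2' n b2' y hy1 hy2 K hKc (fun k => p (n - k)) (fun k => p (p (n - k)))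
    ((p_inj n).mono (by exact_mod_cast hK))
    ((pp_inj n).mono (by exact_mod_cast hK)) (fun k hk => f1 k (hK hk)) (fun k hk => f2 k (hK hk)) g₀ G g₁ G'
    hg1 hg2 hg3 hg4
  have e : ((2 : ℕ) : ℝ) = 2 := by norm_num
  rw [e] at h1
  have e2 : ∀ x : ℝ, (Pool.Agent.H373R2.T7.Vz y * (2 * Real.log n)) * (Pool.Agent.H373R2.T7.Vz y * (2 * Real.log n)) =
      (2 * V y * Real.log n) ^ 2 := by
    intro _
    have : Pool.Agent.H373R2.T7.Vz y = V y := rfl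
    rw [this]
    ring
  rw [e2 0] at h1
  exact h1

end Pool.Agent.Results.MP_04ff0f_nt.IndexShiftPairs
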