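import Pool.Agent.R518.B.Sys2

set_option autoImplicit false

/-!
# Primes `p` such that `p ^ 2 - 2` is rough: exact number and law of the successors
-/

namespace Pool.Agent.Results.MP_04ff0f_nt.PrimeArguments

open Finset Filter

/-- `l` divides `p` or `p ^ 2 - 2`. -/
def Divides (l p : ℕ) : Prop := l ∣ p ∨ (l : ℤ) ∣ (p : ℤ) ^ 2 - 2

/-- Neither `p` nor `p ^ 2 - 2` has a prime factor `≤ y`. -/
def Rough (y p : ℕ) : Prop := ∀ l : ℕ, l.Prime → l ≤ y → ¬ Divides l p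

open Classical in
/-- The density of the integers `p` with `Rough y p`: the product of `1 - ν(l) / l` over the primes `l ≤ y`, where
`ν(l)` is the number of the residues `p` modulo `l` with `l ∣ p` or `l ∣ p ^ 2 - 2` (`1` or `3`, and `1` for
`l = 2`). -/
noncomputable def V (y : ℕ) : ℝ := ∏ l ∈ (Finset.range (y + 1)).filter Nat.Prime,
    (1 - (((Finset.range l).filter (fun p : ℕ => Divides l p)).card : ℝ) / l)

open Classical in
/-- The product of `(1 - ν(l) / l) / (1 - 1 / l)` over the primes `l ≤ y`. -/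
noncomputable def W (y : ℕ) : ℝ := ∏ l ∈ (Finset.range (y + 1)).filter Nat.Prime,
    (1 - (((Finset.range l).filter (fun p : ℕ => Divides l p)).card : ℝ) / l) / (1 - 1 / (l : ℝ))

open Classical in
/-- The primes `p` in `(u, u + Y]` with `Rough y p`. -/
noncomputable def P (y u Y : ℕ) : Finset ℕ := (Ioc u (u + Y)).filter (fun p => p.Prime ∧ Rough y p)

open Classical in
/-- The number of the integers `m` in `(p, p + T]` with `Rough y m`. -/
noncomputable def Next (y T p : ℕ) : ℕ := ((Ioc p (p + T)).filter (fun m => Rough y m)).card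

/-- **The primes `p` with `p ^ 2 - 2` rough.** For all `θ, δ > 0`, `x0` and `ε > 0` there is `r0` such that for
`r ≥ r0` and all large `N` the following holds with `y = N ^ (1 / r)` for all `X ≥ N ^ θ` and all intervals
`(u, u + Y]` in `(0, X]` with `Y ≥ δ X`: (1) the number of the primes `p > y` in the interval for which
`p ^ 2 - 2` has no prime factor `≤ y` is `(1 + O(ε)) Y W / log X`; (2) if `T V ≤ x0`, then the number of the
integers `m` in `(p, p + T]` for which neither `m` nor `m ^ 2 - 2` has a prime factor `≤ y`, `p` running over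
these primes, has the Poisson law with mean `T V`, up to `ε`. -/
theorem result (θ δ : ℝ) (hθ : 0 < θ) (hδ : 0 < δ) (hδ1 : δ ≤ 1) (x0 ε : ℝ) (hε : 0 < ε) (hε1 : ε ≤ 1) :
    ∃ r0 : ℕ, 2 ≤ r0 ∧ ∀ r : ℕ, r0 ≤ r → ∀ᶠ N : ℕ in atTop,
      0 < W ⌊(N : ℝ) ^ (1 / (r : ℝ))⌋₊ ∧
      ∀ X : ℕ, (N : ℝ) ^ θ ≤ X → ∀ u Y : ℕ, δ * X ≤ Y → u + Y ≤ X →
        |((P ⌊(N : ℝ) ^ (1 / (r : ℝ))⌋₊ u Y).card : ℝ) * Real.log X -
          Y * W ⌊(N : ℝ) ^ (1 / (r : ℝ))⌋₊| ≤ ε * (Y * W ⌊(N : ℝ) ^ (1 / (r : ℝ))⌋₊) ∧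
        ∀ T : ℕ, T * V ⌊(N : ℝ) ^ (1 / (r : ℝ))⌋₊ ≤ x0 → ∀ J : Finset ℕ,
          |(((P ⌊(N : ℝ) ^ (1 / (r : ℝ))⌋₊ u Y).filter
              (fun p => Next ⌊(N : ℝ) ^ (1 / (r : ℝ))⌋₊ T p ∈ J)).card : ℝ) -
            (P ⌊(N : ℝ) ^ (1 / (r : ℝ))⌋₊ u Y).card *
              ∑ i ∈ J, Real.exp (-(T * V ⌊(N : ℝ) ^ (1 / (r : ℝ))⌋₊)) *
                (T * V ⌊(N : ℝ) ^ (1 / (r : ℝ))⌋₊) ^ i / i.factorial| ≤
            ε * (P ⌊(N : ℝ) ^ (1 / (r : ℝ))⌋₊ u Y).card := by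
  obtain ⟨r0, hr0, h0⟩ := Pool.Agent.R518.G.primeG1 2 2 1 1 θ δ one_pos hθ hδ hδ1 x0 ε hε hε1
  refine ⟨r0, hr0, fun r hr => ?_⟩
  filter_upwards [h0 r hr, eventually_ge_atTop 2] with N hN hN2
  exact hN _ Divides (Pool.Agent.R518.G.q2_us ((N : ℤ) ^ 1) (by rw [pow_one]; exact_mod_cast hN2) _)
    Pool.Agent.R518.G.q2_rep ⟨0, fun p => Pool.Agent.R518.G.q2_base p⟩ _ rfl

end Pool.Agent.Results.MP_04ff0f_nt.PrimeArguments
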