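import Pool.Agent.R518.B.Sys2

set_option autoImplicit false

/-!
# Regular points of arbitrary sets of primes `p` with `p ^ 2 - 2` prime or rough
-/

namespace Pool.Agent.Results.MP_04ff0f_nt.RegularPoints

open Finset Filter

/-- `l` divides `p` or `p ^ 2 - 2`. -/
def Divides (l p : ℕ) : Prop := l ∣ p ∨ (l : ℤ) ∣ (p : ℤ) ^ 2 - 2

/-- Neither `p` nor `p ^ 2 - 2` has a prime factor `≤ y`. -/
def Rough (y p : ℕ) : Prop := ∀ l : ℕ, l.Prime → l ≤ y → ¬ Divides l p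

open Classical in
/-- The density of the integers `p` with `Rough y p`: the product of `1 - ν(l) / l` over the primes `l ≤ y`, where
`ν(l)` is the number of the residues `p` modulo `l` with `l ∣ p` or `l ∣ p ^ 2 - 2` (`1` or `3`, and `1` for
`l = 2`). -/
noncomputable def V (y : ℕ) : ℝ := ∏ l ∈ (Finset.range (y + 1)).filter Nat.Prime,
    (1 - (((Finset.range l).filter (fun p : ℕ => Divides l p)).card : ℝ) / l)

open Classical in
/-- The number of elements of `S` in `(a, b]`. -/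
noncomputable def count (S : Set ℕ) (a b : ℕ) : ℕ := ((Finset.Ioc a b).filter (fun m => m ∈ S)).card

/-- All intervals `(m - s, m + t]` with `s, t ≤ Y` of length at least `L / κ` contain between
`κ (s + t) / L` and `(s + t) / (κ L)` elements of `S`. -/
def RightOrder (S : Set ℕ) (L κ : ℝ) (Y m : ℕ) : Prop :=
  ∀ s t : ℕ, s ≤ Y → t ≤ Y → L ≤ κ * (s + t) →
    κ * (s + t) / L ≤ count S (m - s) (m + t) ∧ (count S (m - s) (m + t) : ℝ) ≤ (s + t) / (κ * L)

/-- Up to `δ`, `S` has a constant density on both sides of `m` up to the distance `2 ^ j`. -/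
def ConstantDensity (S : Set ℕ) (L κ δ : ℝ) (m j : ℕ) : Prop :=
  ∃ lam : ℝ, κ ≤ lam ∧ lam ≤ 1 / κ ∧ ∀ s t : ℕ, s ≤ 2 ^ j → t ≤ 2 ^ j →
    |(count S (m - s) (m + t) : ℝ) - lam * (s + t) / L| ≤ δ * 2 ^ j / L

open Classical in
/-- The number of the scales `L ≤ 2 ^ j ≤ Y` without this property. -/
noncomputable def badScales (S : Set ℕ) (L κ δ : ℝ) (Y m : ℕ) : ℕ :=
  ((Finset.range (Nat.log 2 Y + 1)).filter (fun j => L ≤ (2 : ℝ) ^ j ∧ ¬ ConstantDensity S L κ δ m j)).card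

/-- The elements of `S` that are not regular points of `S`. -/
def Irregular (S : Set ℕ) (L κ δ : ℝ) (M Y : ℕ) : Set ℕ :=
  {m | m ∈ S ∧ ¬ (RightOrder S L κ Y m ∧ badScales S L κ δ Y m ≤ M)}

/-- **Regular points.** Let `θ > 0` be given and `r ≥ r0(θ)`. For `ε > 0` there is `κ > 0`, and for `δ > 0` there
is `M`, such that for all large `X`, all `X ^ θ ≤ Y ≤ X`, `u ≥ Y`, and EVERY set `S` of integers `p` such that
neither `p` nor `p ^ 2 - 2` has a prime factor `≤ X ^ (1 / r)`, for instance the set of all primes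
`p > X ^ (1 / r)` with `p ^ 2 - 2` prime, or any subset of it: all but at most `ε Y V` of the elements of `S` in
`(u, u + Y]` are regular points of `S`: all intervals of length between `1 / (κ V)` and `Y` around them
contain the right order of elements of `S`, and `S` has a constant density up to `δ` around them at all but
`M` dyadic scales. -/
theorem result (θ : ℝ) (hθ : 0 < θ) :
    ∃ r0 : ℕ, 2 ≤ r0 ∧ ∀ r : ℕ, r0 ≤ r → ∀ ε : ℝ, 0 < ε → ∃ κ : ℝ, 0 < κ ∧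
      ∀ δ : ℝ, 0 < δ → ∃ M : ℕ, ∀ᶠ X : ℕ in atTop, ∀ u Y : ℕ, (X : ℝ) ^ θ ≤ Y → Y ≤ X → Y ≤ u →
      ∀ S : Set ℕ, (∀ p ∈ S, Rough ⌊(X : ℝ) ^ (1 / (r : ℝ))⌋₊ p) →
        (count (Irregular S (1 / V ⌊(X : ℝ) ^ (1 / (r : ℝ))⌋₊) κ δ M Y) u (u + Y) : ℝ) ≤
          ε * (Y * V ⌊(X : ℝ) ^ (1 / (r : ℝ))⌋₊) := by
  obtain ⟨r0, hr0, h0⟩ := Pool.Agent.R518.G.regG 2 2 1 0 1 θ one_pos hθ
  refine ⟨r0, hr0, fun r hr ε hε => ?_⟩
  obtain ⟨κ, hκ, h1⟩ := h0 r hr 1 ε one_pos hε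
  refine ⟨κ, hκ, fun δ hδ => ?_⟩
  obtain ⟨M, h2⟩ := h1 δ hδ
  refine ⟨M, ?_⟩
  filter_upwards [h2, eventually_ge_atTop 2] with X hX hX2
  intro u Y hY hYX hYu S hS
  exact hX _ Divides (Pool.Agent.R518.G.q2_us ((X : ℤ) ^ 1) (by rw [pow_one]; exact_mod_cast hX2) _)
    Pool.Agent.R518.G.q2_rep ∅ (by simp) (Pool.Agent.R518.G.q2_noAs _) _ rfl (by
    rw [one_mul]
    exact Pool.Agent.R518.G.De_le_D1 (fun p hp => ⟨0, hp.pos, Or.inl (dvd_zero _)⟩) _) u Y hY hYX hYu S hS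

end Pool.Agent.Results.MP_04ff0f_nt.RegularPoints
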